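import Mathlib

namespace Pool.Agent.H121ed1

open Finset Relation

variable {V : Type} [Fintype V] [DecidableEq V]

def dv (φ : V → V → ℝ) (v : V) : ℝ := ∑ w, φ v w - ∑ u, φ u v
def dl (a v : V) : ℝ := if v = a then 1 else 0
def ed (a b : V) : V → V → ℝ := fun u w => dl a u * dl b w
def Sy (P : V → V → Prop) (a b : V) : Prop := P a b ∨ P b a

omit [DecidableEq V] in
lemma dv_lin (φ ψ : V → V → ℝ) (e : ℝ) (v : V) :
    dv (fun x y => φ x y + e * ψ x y) v = dv φ v + e * dv ψ v := by
  simp only [dv, Finset.sum_add_distrib, ← Finset.mul_sum]; ring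

lemma dv_ed (a b v : V) : dv (ed a b) v = dl a v - dl b v := by
  simp only [dv, ed, ← Finset.mul_sum, ← Finset.sum_mul]
  simp [dl]

omit [Fintype V] in
lemma ed_ne {a b x y : V} (h : ed a b x y ≠ 0) : x = a ∧ y = b := by
  by_contra hc
  apply h
  by_cases h1 : x = a
  · have h2 : y ≠ b := fun e => hc ⟨h1, e⟩
    simp [ed, dl, h2]
  · simp [ed, dl, h1]

omit [DecidableEq V] in
lemma sum_dv (φ : V → V → ℝ) : ∑ v, dv φ v = 0 := by
  simp only [dv, Finset.sum_sub_distrib]
  rw [Finset.sum_comm (f := fun v u => φ u v)]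
  simp

omit [Fintype V] [DecidableEq V] in
lemma conn_mono {P Q : V → V → Prop} (h : ∀ x y, P x y → Q x y) {a b : V}
    (hab : ReflTransGen (Sy P) a b) : ReflTransGen (Sy Q) a b := by
  induction hab with
  | refl => exact ReflTransGen.refl
  | tail _ hxy ih => exact ih.tail (Or.imp (h _ _) (h _ _) hxy)

lemma flow_of_conn {P : V → V → Prop} {a b : V} (h : ReflTransGen (Sy P) a b) :
    ∃ ψ : V → V → ℝ, (∀ x y, ψ x y ≠ 0 → P x y) ∧ ∀ v, dv ψ v = dl a v - dl b v := by
  induction h with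
  | refl => exact ⟨fun _ _ => 0, by simp, by simp [dv]⟩
  | @tail b c _ hbc ih =>
    obtain ⟨ψ, h1, h2⟩ := ih
    rcases hbc with hbc | hbc
    · refine ⟨fun x y => ψ x y + 1 * ed b c x y, ?_, ?_⟩
      · intro x y hxy
        by_cases h0 : ψ x y = 0
        · have : ed b c x y ≠ 0 := by simpa [h0] using hxy
          obtain ⟨rfl, rfl⟩ := ed_ne this
          exact hbc
        · exact h1 x y h0
      · intro v; rw [dv_lin, h2, dv_ed]; ring
    · refine ⟨fun x y => ψ x y + (-1) * ed c b x y, ?_, ?_⟩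
      · intro x y hxy
        by_cases h0 : ψ x y = 0
        · have : ed c b x y ≠ 0 := by simpa [h0] using hxy
          obtain ⟨rfl, rfl⟩ := ed_ne this
          exact hbc
        · exact h1 x y h0
      · intro v; rw [dv_lin, h2, dv_ed]; ring

lemma path_flow {H : V → V → Prop} {σ v : V} (h : ReflTransGen H σ v) :
    ∃ π : V → V → ℝ, (∀ x y, 0 ≤ π x y) ∧ (∀ x y, π x y ≠ 0 → H x y) ∧
      (∀ x, dv π x = dl σ x - dl v x) ∧ ReflTransGen (Sy fun x y => π x y ≠ 0) v σ ∧
      ∀ x y, π x y ≠ 0 → ReflTransGen (Sy fun x y => π x y ≠ 0) x σ := by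
  induction h with
  | refl => exact ⟨fun _ _ => 0, by simp, by simp, by simp [dv], ReflTransGen.refl, by simp⟩
  | @tail b c _ hbc ih =>
    obtain ⟨π, h0, h1, h2, h3, h4⟩ := ih
    have he : ∀ x y, 0 ≤ ed b c x y := by
      intro x y; unfold ed dl; split_ifs <;> norm_num
    have hm : ∀ x y, π x y ≠ 0 → π x y + 1 * ed b c x y ≠ 0 := by
      intro x y hxy
      have := lt_of_le_of_ne (h0 x y) (Ne.symm hxy)
      have := he x y
      positivity
    have hc : ∀ x y, π x y + 1 * ed b c x y ≠ 0 → π x y ≠ 0 ∨ (x = b ∧ y = c) := by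
      intro x y hxy
      by_cases h0 : π x y = 0
      · exact Or.inr (ed_ne (by simpa [h0] using hxy))
      · exact Or.inl h0
    refine ⟨fun x y => π x y + 1 * ed b c x y, ?_, ?_, ?_, ?_, ?_⟩
    · intro x y; have := h0 x y; have := he x y; positivity
    · intro x y hxy
      rcases hc x y hxy with h | ⟨rfl, rfl⟩
      · exact h1 x y h
      · exact hbc
    · intro x; rw [dv_lin, h2, dv_ed]; ring
    · refine ReflTransGen.head (Or.inr ?_) (conn_mono hm h3)
      have := h0 b c
      have e : ed b c b c = 1 := by simp [ed, dl]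
      show π b c + 1 * ed b c b c ≠ 0
      rw [e]; positivity
    · intro x y hxy
      rcases hc x y hxy with h | ⟨rfl, rfl⟩
      · exact conn_mono hm (h4 x y h)
      · exact conn_mono hm h3

omit [DecidableEq V] in
lemma generic (φ χ : V → V → ℝ) :
    ∃ e : ℝ, e ≠ 0 ∧ ∀ x y, φ x y ≠ 0 → φ x y + e * χ x y ≠ 0 := by
  classical
  obtain ⟨e, he⟩ := Infinite.exists_notMem_finset
    (insert (0 : ℝ) (univ.image fun p : V × V => -φ p.1 p.2 / χ p.1 p.2))
  refine ⟨e, fun h => he (by simp [h]), fun x y h1 h2 => he ?_⟩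
  have h3 : χ x y ≠ 0 := by
    intro h; rw [h] at h2; exact h1 (by simpa using h2)
  refine Finset.mem_insert_of_mem (Finset.mem_image.2 ⟨(x, y), Finset.mem_univ _, ?_⟩)
  field_simp
  linarith

def Cl (H : V → V → Prop) (S : V → Prop) [DecidablePred S] (d : V) (φ : V → V → ℝ) : Prop :=
  (∀ x y, φ x y ≠ 0 → H x y) ∧ (∀ v, v ≠ d → dv φ v = if S v then 1 else 0) ∧
    (∀ s, S s → ReflTransGen (Sy fun x y => φ x y ≠ 0) s d) ∧
    ∀ a b, φ a b ≠ 0 → ReflTransGen (Sy fun x y => φ x y ≠ 0) a d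

lemma cl_ex (H : V → V → Prop) (S : V → Prop) [DecidablePred S] (d : V)
    (hC : ∀ s, S s → ReflTransGen (Sy H) s d) : ∃ φ, Cl H S d φ := by
  classical
  have h0 : ∀ s, ∃ ψ : V → V → ℝ, (∀ x y, ψ x y ≠ 0 → H x y) ∧
      ∀ v, dv ψ v = if S s then dl s v - dl d v else 0 := by
    intro s
    by_cases hs : S s
    · simpa [hs] using flow_of_conn (hC s hs)
    · exact ⟨fun _ _ => 0, by simp, by simp [dv, hs]⟩
  choose ψ h1 h2 using h0
  set φ0 : V → V → ℝ := fun x y => ∑ s, ψ s x y with hφ0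
  have a1 : ∀ x y, φ0 x y ≠ 0 → H x y := by
    intro x y h
    obtain ⟨s, -, hs⟩ := Finset.exists_ne_zero_of_sum_ne_zero h
    exact h1 s x y hs
  have a2 : ∀ v, v ≠ d → dv φ0 v = if S v then 1 else 0 := by
    intro v hv
    have : dv φ0 v = ∑ s, dv (ψ s) v := by
      simp only [dv, hφ0, Finset.sum_sub_distrib]
      rw [Finset.sum_comm (f := fun w s => ψ s v w), Finset.sum_comm (f := fun u s => ψ s u v)]
    rw [this, Finset.sum_eq_single v]
    · simp [h2, dl, hv]
    · intro s _ hs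
      simp [h2, dl, hv, Ne.symm hs]
    · simp
  set K : V → Prop := fun x => ReflTransGen (Sy fun x y => φ0 x y ≠ 0) x d with hK
  have k1 : ∀ x y, φ0 x y ≠ 0 → (K x ↔ K y) := fun x y h =>
    ⟨fun hx => ReflTransGen.head (Or.inr h) hx, fun hy => ReflTransGen.head (Or.inl h) hy⟩
  set φ1 : V → V → ℝ := fun x y => if K x then φ0 x y else 0 with hφ1
  have b1 : ∀ v, dv φ1 v = if K v then dv φ0 v else 0 := by
    intro v
    have : ∀ u, φ1 u v = if K v then φ0 u v else 0 := by
      intro u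
      by_cases h : φ0 u v = 0
      · simp [hφ1, h]
      · simp only [hφ1, k1 u v h]
    unfold dv
    simp only [this]
    by_cases hv : K v
    · simp [hφ1, hv]
    · simp [hφ1, hv]
  have kd : K d := ReflTransGen.refl
  have b2 : ∀ s, S s → K s := by
    intro s hs
    by_contra hc
    have e : ∑ v, (dv φ0 v - dv φ1 v) = 0 := by
      rw [Finset.sum_sub_distrib, sum_dv, sum_dv, sub_zero]
    rw [Finset.sum_eq_zero_iff_of_nonneg] at e
    · have := e s (Finset.mem_univ _)
      have hsd : s ≠ d := fun h => hc (h ▸ kd)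
      rw [b1, if_neg hc, a2 s hsd, if_pos hs] at this
      norm_num at this
    · intro v _
      rw [b1]
      by_cases hv : K v
      · simp [hv]
      · have hvd : v ≠ d := fun h => hv (h ▸ kd)
        rw [if_neg hv, a2 v hvd]
        split_ifs <;> norm_num
  have b3 : ∀ x, K x → ReflTransGen (Sy fun x y => φ1 x y ≠ 0) x d := by
    intro x hx
    induction hx using ReflTransGen.head_induction_on with
    | refl => exact ReflTransGen.refl
    | @head a c hac hc ih =>
      have hKc : K c := hc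
      have hKa : K a := ReflTransGen.head hac hc
      refine ReflTransGen.head ?_ ih
      rcases hac with h | h
      · left; simpa [hφ1, hKa] using h
      · right; simpa [hφ1, hKc] using h
  have b4 : ∀ x y, φ1 x y ≠ 0 → K x ∧ φ0 x y ≠ 0 := by
    intro x y h
    by_cases hx : K x
    · exact ⟨hx, by simpa [hφ1, hx] using h⟩
    · exact absurd (by simp [hφ1, hx]) h
  refine ⟨φ1, fun x y h => a1 x y (b4 x y h).2, ?_, fun s hs => b3 s (b2 s hs),
    fun a b h => b3 a (b4 a b h).1⟩
  intro v hv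
  rw [b1, a2 v hv]
  by_cases hs : S v
  · simp [hs, b2 v hs]
  · simp [hs]

theorem rooted_flow (H : V → V → Prop) (S : V → Prop) [DecidablePred S] (d : V)
    (hroot : ∀ u v, H u v → ∃ σ, S σ ∧ ReflTransGen H σ u)
    (hC : ∀ s, S s → ReflTransGen (Sy H) s d) :
    ∃ φ : V → V → ℝ, (∀ x y, φ x y ≠ 0 → H x y) ∧
      (∀ v, v ≠ d → dv φ v = if S v then 1 else 0) ∧
      ∀ x y, φ x y ≠ 0 → S x ∨ ∃ u, φ u x ≠ 0 := by
  classical
  let f : (V → V → ℝ) → ℕ := fun φ => (univ.filter fun p : V × V => φ p.1 p.2 = 0).card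
  have hex : ∃ n, ∃ φ, Cl H S d φ ∧ f φ = n := by
    obtain ⟨φ, h⟩ := cl_ex H S d hC
    exact ⟨_, φ, h, rfl⟩
  obtain ⟨φ, ⟨c1, c2, c3, c4⟩, hn⟩ := Nat.find_spec hex
  refine ⟨φ, c1, c2, ?_⟩
  intro x y hxy
  by_contra hc
  push Not at hc
  obtain ⟨hS, hin⟩ := hc
  obtain ⟨σ, hσ, hp⟩ := hroot x y (c1 x y hxy)
  obtain ⟨π, p0, p1, p2, -, p4⟩ := path_flow hp
  obtain ⟨ψ, s1, s2⟩ := flow_of_conn (c4 x y hxy)
  obtain ⟨τ, t1, t2⟩ := flow_of_conn (c3 σ hσ)
  have hxσ : x ≠ σ := fun h => hS (h ▸ hσ)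
  obtain ⟨u, hu⟩ : ∃ u, π u x ≠ 0 := by
    by_contra hc
    push Not at hc
    have h1 := p2 x
    have h2 : 0 ≤ ∑ w, π x w := Finset.sum_nonneg fun w _ => p0 x w
    simp [dv, dl, hc, hxσ] at h1
    linarith
  set χ : V → V → ℝ := fun a b => (π a b + 1 * ψ a b) + (-1) * τ a b with hχ
  have hdχ : ∀ v, dv χ v = 0 := by
    intro v
    rw [hχ, dv_lin, dv_lin, p2, s2, t2]; ring
  obtain ⟨e, he, hg⟩ := generic φ χ
  have z : ∀ a b, φ a b = 0 → φ a b + e * χ a b = e * π a b := by
    intro a b h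
    have h1 : ψ a b = 0 := by by_contra h'; exact s1 a b h' h
    have h2 : τ a b = 0 := by by_contra h'; exact t1 a b h' h
    simp [hχ, h, h1, h2]
  have g2 : ∀ a b, π a b ≠ 0 → φ a b + e * χ a b ≠ 0 := by
    intro a b h
    by_cases h0 : φ a b = 0
    · rw [z a b h0]; exact mul_ne_zero he h
    · exact hg a b h0
  have g3 : ∀ a b, φ a b + e * χ a b ≠ 0 → φ a b ≠ 0 ∨ π a b ≠ 0 := by
    intro a b h
    by_cases h0 : φ a b = 0
    · rw [z a b h0] at h; exact Or.inr (right_ne_zero_of_mul h)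
    · exact Or.inl h0
  have hcl : Cl H S d (fun a b => φ a b + e * χ a b) := by
    refine ⟨?_, ?_, fun s hs => conn_mono hg (c3 s hs), ?_⟩
    · intro a b h
      rcases g3 a b h with h | h
      · exact c1 a b h
      · exact p1 a b h
    · intro v hv
      rw [dv_lin, hdχ, c2 v hv]; ring
    · intro a b h
      rcases g3 a b h with h | h
      · exact conn_mono hg (c4 a b h)
      · exact (conn_mono g2 (p4 a b h)).trans (conn_mono hg (c3 σ hσ))
  have hlt : f (fun a b => φ a b + e * χ a b) < f φ := by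
    apply Finset.card_lt_card
    rw [Finset.ssubset_iff_of_subset]
    · refine ⟨(u, x), by simp [hin], ?_⟩
      simp only [Finset.mem_filter, Finset.mem_univ, true_and]
      exact g2 u x hu
    · intro p hp
      simp only [Finset.mem_filter, Finset.mem_univ, true_and] at hp ⊢
      by_contra h
      exact hg _ _ h hp
  exact Nat.find_min hex (hn ▸ hlt) ⟨_, hcl, rfl⟩

omit [DecidableEq V] in
lemma exists_alpha (m β m' β' : V → ℝ) (hΦ : ∑ i, m i * β i = ∑ j, m' j * β' j)
    (hβ : ∃ j, β' j ≠ 0) (hm : (∀ i, m i = 0) → ∀ j, m' j = 0) :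
    ∃ α : V → V → ℝ, (∀ j, ∑ i, α i j * m i = m' j) ∧ ∀ i, ∑ j, α i j * β' j = β i := by
  classical
  obtain ⟨j0, hj⟩ := hβ
  by_cases h0 : ∀ i, m i = 0
  · refine ⟨fun i j => if j = j0 then β i / β' j0 else 0, fun j => by simp [h0, hm h0], ?_⟩
    intro i
    simp only [ite_mul, zero_mul, Finset.sum_ite_eq', Finset.mem_univ, if_true]
    field_simp
  · push Not at h0
    obtain ⟨i0, hi⟩ := h0
    refine ⟨fun i j => (if j = j0 then β i / β' j0 else 0) + (if i = i0 then
      (m' j - if j = j0 then (∑ i, m i * β i) / β' j0 else 0) / m i0 else 0), ?_, ?_⟩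
    · intro j
      simp only [add_mul, Finset.sum_add_distrib, ite_mul, zero_mul, Finset.sum_ite_eq',
        Finset.mem_univ, if_true]
      by_cases hjj : j = j0
      · simp only [hjj, if_true]
        have : ∑ i, β i / β' j0 * m i = (∑ i, m i * β i) / β' j0 := by
          rw [Finset.sum_div]; exact Finset.sum_congr rfl fun i _ => by ring
        rw [this]; field_simp; ring
      · simp only [hjj, if_false]
        field_simp; simp
    · intro i
      simp only [add_mul, Finset.sum_add_distrib, ite_mul, zero_mul, Finset.sum_ite_eq',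
        Finset.mem_univ, if_true]
      by_cases hii : i = i0
      · simp only [hii, if_true]
        have : ∀ Φ : ℝ, ∑ j, (m' j - if j = j0 then Φ / β' j0 else 0) / m i0 * β' j =
            (∑ j, m' j * β' j - ∑ j, (if j = j0 then Φ / β' j0 * β' j else 0))
              / m i0 := by
          intro Φ
          rw [← Finset.sum_sub_distrib, Finset.sum_div]
          refine Finset.sum_congr rfl fun j _ => ?_
          split_ifs <;> ring
        rw [this, Finset.sum_ite_eq', if_pos (Finset.mem_univ _), ← hΦ]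
        field_simp; ring
      · simp only [hii, if_false, Finset.sum_const_zero, add_zero]
        field_simp

end Pool.Agent.H121ed1
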