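import Mathlib

namespace Pool.Agent.H121ed1

open MeasureTheory ProbabilityTheory Finset

theorem gauss_indep {Ω : Type} [MeasurableSpace Ω] (P : Measure Ω) {ι κ : Type} [Fintype ι]
    [Fintype κ] (X : ι → Ω → ℝ) (hX : ∀ s, HasLaw (X s) (gaussianReal 0 1) P)
    (hi : iIndepFun X P) (c : κ → ι → ℝ) (hc : ∀ e, ∑ s, c e s = 0) :
    IndepFun (fun ω e => ∑ s, c e s * X s ω) (fun ω => ∑ s, X s ω) P := by
  classical
  have hP := hi.isProbabilityMeasure
  have hG : ∀ s, HasGaussianLaw (X s) P := fun s => (hX s).hasGaussianLaw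
  have hJ : HasGaussianLaw (fun ω => (X · ω)) P := hi.hasGaussianLaw hG
  have h2 : ∀ s, MemLp (X s) 2 P := fun s => (hG s).memLp_two
  let L1 : (ι → ℝ) →L[ℝ] (κ → ℝ) :=
    ContinuousLinearMap.pi fun e => ∑ s, c e s • ContinuousLinearMap.proj s
  let L2 : (ι → ℝ) →L[ℝ] (Unit → ℝ) :=
    ContinuousLinearMap.pi fun _ => ∑ s, ContinuousLinearMap.proj s
  have hJ2 : HasGaussianLaw (fun ω => (fun e => ∑ s, c e s * X s ω,
      fun _ : Unit => ∑ s, X s ω)) P := by
    have := hJ.map_fun (L1.prod L2)
    have e : (fun ω => (L1.prod L2) (X · ω)) = fun ω => (fun e => ∑ s, c e s * X s ω,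
      fun _ : Unit => ∑ s, X s ω) := by
      funext ω
      ext <;> simp [L1, L2]
    rw [e] at this
    exact this
  have hcov : ∀ s t, cov[X s, X t; P] = if s = t then 1 else 0 := by
    intro s t
    by_cases h : s = t
    · subst h
      rw [covariance_self (hX s).aemeasurable, (hX s).variance_eq]
      simp
    · rw [if_neg h]
      exact (hi.indepFun h).covariance_eq_zero (h2 s) (h2 t)
  have key := HasGaussianLaw.indepFun_of_covariance_eval
    (X := fun e ω => ∑ s, c e s * X s ω) (Y := fun (_ : Unit) ω => ∑ s, X s ω) hJ2 (by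
      intro e _
      rw [covariance_fun_sum_left (X := fun s ω => c e s * X s ω)
        (fun s => (h2 s).const_mul _) (memLp_finsetSum _ fun s _ => h2 s)]
      rw [← hc e]
      refine Finset.sum_congr rfl fun s _ => ?_
      rw [covariance_const_mul_left, covariance_fun_sum_right h2 (h2 s)]
      simp [hcov])
  exact key.comp measurable_id (measurable_pi_apply ())

end Pool.Agent.H121ed1
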